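import Pool.Agent.Run7.h143.Van
import Pool.Agent.R693.W.Gen

/-!
# The ascending chain condition on all two-sided ideals of `U(W)`

The enveloping algebra of the Witt algebra over a field of characteristic zero satisfies the ascending
chain condition on all two-sided ideals: question (c), hence also (a) and (b).

Idea (see `Pool/Agent/Run7/h143` and `Pool/Agent/R693/W`).  Let `x m = t^m ∂` and let `S` be the
symmetric algebra, with the derivations `d l (x m) = (m - l) x (m + l - 1)`.

* The leading forms of a two-sided ideal form an ideal of `S` stable under all `d l`; a chain of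
  ideals is stationary as soon as the chain of the leading forms is.  Every nonzero two-sided ideal
  contains, for some `d` and `N`, all values of `Δ ^ N` on products of `d` generators, where `Δ` is
  the discriminant of the shift operators, so the leading forms contain the corresponding elements
  of `S`.
* Induction on the number of factors reduces the chain condition for stable ideals of `S` to stable
  subspaces, for a twisted action, of `S[z_1^±, ..., z_k^±]` containing an ideal of relations
  `x(χ(y) y ^ m)`, `χ` a product of factors `y - z_i`.
* The latter is proved by induction on the number of points `z_i` and of the roots of `χ`.  Points of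
  weight one which are not roots are removed by residues.  Otherwise a power of a conductor times
  a differential operator maps every stable subspace `I` into a subspace of `I` which is a module
  over a subalgebra over which the whole algebra is a Noetherian module, the kernel of the operator
  is controlled by fewer points, and multiples of the conductor are controlled by merging points and
  removing roots.
-/

set_option autoImplicit false

namespace Pool.Agent.Results.MP_e28a79_al.ChainAll

open Pool.Agent.R693

universe u v

/-- `L` is the Witt algebra: it has a basis `e_n`, `n ∈ ℤ`, with `[e_m, e_n] = (m - n) e_{m + n}`. -/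
def IsWitt (F : Type u) [Field F] (L : Type v) [LieRing L] [LieAlgebra F L] : Prop :=
  ∃ b : Module.Basis ℤ F L, ∀ m n : ℤ, ⁅b m, b n⁆ = ((m - n : ℤ) : F) • b (m + n)

section
attribute [local instance 100] LieRing.ofAssociativeRing

variable {F : Type u} [Field F] {L : Type v} [LieRing L] [LieAlgebra F L]

lemma iota_comm (x y : L) : UniversalEnvelopingAlgebra.ι F x * UniversalEnvelopingAlgebra.ι F y -
    UniversalEnvelopingAlgebra.ι F y * UniversalEnvelopingAlgebra.ι F x =
      UniversalEnvelopingAlgebra.ι F ⁅x, y⁆ := by
  rw [LieHom.map_lie, LieRing.of_associative_ring_bracket]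

lemma acc_witt [CharZero F] (h : IsWitt F L) (I : ℕ → TwoSidedIdeal (UniversalEnvelopingAlgebra F L))
    (hI : Monotone I) : ∃ n, ∀ m, n ≤ m → I m = I n := by
  obtain ⟨b, hb⟩ := h
  have hW : W.IsW F (fun n : ℤ => - UniversalEnvelopingAlgebra.ι F (b (n - 1))) := by
    intro m n j hmn
    beta_reduce
    have h2 : (W.Lab.one : ℤ) = 1 := rfl
    have h3 : ∀ k : ℤ, (W.Lab.c k : ℤ) = k := fun k => rfl
    rw [h2] at hmn
    rw [neg_mul_neg, neg_mul_neg, iota_comm, hb, map_smul, h3, h3, smul_neg, ← neg_smul]
    congr 2
    · push_cast
      ring
    · congr 1
      omega
  refine Run7.h143.acc_all (F := F) hW (W.span_of_adjoin ?_) I hI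
  rw [eq_top_iff, ← W.uea_adjoin_basis F b, Algebra.adjoin_le_iff]
  rintro _ ⟨i, rfl⟩
  have h1 : - UniversalEnvelopingAlgebra.ι F (b (i + 1 - 1)) ∈ Algebra.adjoin F
      (Set.range fun n : ℤ => - UniversalEnvelopingAlgebra.ι F (b (n - 1))) :=
    Algebra.subset_adjoin ⟨i + 1, rfl⟩
  have h2 := Subalgebra.neg_mem _ h1
  rwa [neg_neg, add_sub_cancel_right] at h2

end

/-- The enveloping algebra of the Witt algebra over a field of characteristic zero satisfies the
ascending chain condition on two-sided ideals. -/
theorem result (F : Type u) [Field F] [CharZero F] (L : Type v) [LieRing L] [LieAlgebra F L]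
    (hL : IsWitt F L) (I : ℕ → TwoSidedIdeal (UniversalEnvelopingAlgebra F L))
    (hI : Monotone I) : ∃ n, ∀ m, n ≤ m → I m = I n :=
  acc_witt hL I hI

end Pool.Agent.Results.MP_e28a79_al.ChainAll
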